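import Pool.Agent.Y766.R11.Stm
import Pool.Agent.H307R2.LU

/-!
Project R11: `jen` (counting zeros by Jensen's formula) and `trv` (the trivial bound for the number
of zeros of a Dirichlet `L`-function close to a point of the critical line).
-/

set_option autoImplicit false

namespace Pool.Agent.Y907.R11

open Complex Finset Metric
open Pool.Agent.H307R2

theorem dvz {f : ℂ → ℂ} {U : Set ℂ} (h : AnalyticOnNhd ℂ f U) {z : ℂ} (hz : z ∈ U) :
    MeromorphicOn.divisor f U z = (analyticOrderNatAt f z : ℤ) := by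
  rw [MeromorphicOn.AnalyticOnNhd.divisor_apply h hz, analyticOrderNatAt]
  cases hh : analyticOrderAt f z with
  | top => simp
  | coe n => simp

theorem jenA (f : ℂ → ℂ) (hf : Differentiable ℂ f) (c : ℂ) (r R : ℝ) (hr : 0 < r) (hrR : r < R)
    (hc : f c ≠ 0) (S : Finset ℂ) (hS : ∀ ρ ∈ S, ‖ρ - c‖ ≤ r) :
    ((∑ ρ ∈ S, analyticOrderNatAt f ρ : ℕ) : ℝ) * Real.log (R / r) ≤
    Real.circleAverage (fun z => Real.posLog ‖f z‖) c R - Real.log ‖f c‖ := by
  have hR : 0 < R := hr.trans hrR
  have hRa : |R| = R := abs_of_pos hR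
  have han : AnalyticOnNhd ℂ f (closedBall c |R|) := fun z _ => hf.analyticAt z
  have hJ := AnalyticOnNhd.circleAverage_log_norm hR.ne' han hc
  have h1 : Real.circleAverage (fun z => Real.log ‖f z‖) c R ≤
      Real.circleAverage (fun z => Real.posLog ‖f z‖) c R := by
    apply Real.circleAverage_mono
    · exact (han.mono sphere_subset_closedBall).meromorphicOn.circleIntegrable_log_norm
    · apply ContinuousOn.circleIntegrable hR.le
      apply Continuous.continuousOn
      exact Real.continuous_posLog.comp hf.continuous.norm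
    · intro z _
      exact le_max_right _ _
  set D := MeromorphicOn.divisor f (closedBall c |R|) with hD
  have hfin : (Function.support D).Finite := D.finiteSupport (isCompact_closedBall c |R|)
  have hD0 : ∀ u, 0 ≤ (D u : ℝ) * Real.log (R * ‖c - u‖⁻¹) := by
    intro u
    by_cases hu : u ∈ closedBall c |R|
    · rw [hD, dvz han hu]
      apply mul_nonneg (by positivity)
      rw [mem_closedBall, dist_eq_norm, hRa, norm_sub_rev] at hu
      rcases (norm_nonneg (c - u)).eq_or_lt with h0 | h0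
      · rw [← h0]; simp
      · apply Real.log_nonneg
        rw [← div_eq_mul_inv, le_div_iff₀ h0, one_mul]
        exact hu
    · have : D u = 0 := by
        by_contra hne
        exact hu (D.supportWithinDomain hne)
      rw [this]; simp
  have hDs : ∀ u ∈ S, (analyticOrderNatAt f u : ℝ) * Real.log (R / r) ≤
      (D u : ℝ) * Real.log (R * ‖c - u‖⁻¹) := by
    intro u hu
    have hu1 := hS u hu
    have hu2 : u ∈ closedBall c |R| := by
      rw [mem_closedBall, dist_eq_norm, hRa]; linarith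
    rw [hD, dvz han hu2]
    push_cast
    rw [norm_sub_rev] at hu1
    rcases (norm_nonneg (c - u)).eq_or_lt with h0 | h0
    · have : u = c := by
        have := norm_eq_zero.1 h0.symm
        rw [sub_eq_zero] at this
        exact this.symm
      have h3 : analyticOrderNatAt f u = 0 := by
        rw [this, analyticOrderNatAt, (hf.analyticAt c).analyticOrderAt_eq_zero.2 hc]; rfl
      rw [h3]; simp
    · apply mul_le_mul_of_nonneg_left _ (by positivity)
      rw [← div_eq_mul_inv]
      apply Real.log_le_log (by positivity)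
      exact div_le_div_of_nonneg_left hR.le h0 hu1
  have h2 : ((∑ ρ ∈ S, analyticOrderNatAt f ρ : ℕ) : ℝ) * Real.log (R / r) ≤
      ∑ᶠ u, (D u : ℝ) * Real.log (R * ‖c - u‖⁻¹) := by
    rw [finsum_eq_sum_of_support_subset (s := hfin.toFinset ∪ S)]
    · push_cast
      rw [Finset.sum_mul]
      exact (Finset.sum_le_sum hDs).trans
        (Finset.sum_le_sum_of_subset_of_nonneg Finset.subset_union_right (fun u _ _ => hD0 u))
    · intro u hu
      simp only [coe_union, Set.Finite.coe_toFinset, Set.mem_union]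
      left
      intro h
      apply hu
      simp only [h]; simp
  linarith

theorem l2 {q : ℕ} [NeZero q] (χ : DirichletCharacter ℂ q) (t : ℝ) :
    1 / 3 ≤ ‖χ.LFunction (2 + (t : ℂ) * Complex.I)‖ := by
  set s : ℂ := 2 + (t : ℂ) * Complex.I with hs
  have hre : s.re = 2 := by simp [hs]
  have h2 : (1 : ℝ) < s.re := by rw [hre]; norm_num
  rw [DirichletCharacter.LFunction_eq_LSeries χ h2]
  have hsm := DirichletCharacter.LSeriesSummable_of_one_lt_re χ h2
  have hz : HasSum (fun n : ℕ => (1 : ℝ) / (n : ℝ) ^ 2) (Real.pi ^ 2 / 6) := hasSum_zeta_two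
  have h5 : HasSum (fun n : ℕ => 1 / (n : ℝ) ^ 2 - (if n = 1 then (1 : ℝ) else 0))
      (Real.pi ^ 2 / 6 - 1) := hz.sub (hasSum_ite_eq 1 (1 : ℝ))
  have h6 : HasSum (fun n : ℕ => LSeries.term (fun n => χ (n : ZMod q)) s n -
      (if n = 1 then (1 : ℂ) else 0)) (LSeries (fun n => χ (n : ZMod q)) s - 1) :=
    hsm.hasSum.sub (hasSum_ite_eq 1 (1 : ℂ))
  have h7 : ‖LSeries (fun n => χ (n : ZMod q)) s - 1‖ ≤ Real.pi ^ 2 / 6 - 1 := by
    rw [← h6.tsum_eq]
    apply tsum_of_norm_bounded h5
    intro n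
    rcases Nat.eq_zero_or_pos n with h0 | h0
    · subst h0
      simp [LSeries.term_def]
    · rw [LSeries.term_of_ne_zero (by omega)]
      by_cases h1 : n = 1
      · subst h1
        simp
      · rw [if_neg h1, if_neg h1, sub_zero, sub_zero, norm_div,
          Complex.norm_natCast_cpow_of_pos h0, hre, Real.rpow_two]
        exact div_le_div_of_nonneg_right (χ.norm_le_one _) (by positivity)
  have h8 : Real.pi ^ 2 / 6 ≤ 5 / 3 := by
    have := Real.pi_lt_d2
    have := Real.pi_pos
    nlinarith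
  have h9 : (1 : ℝ) ≤ ‖LSeries (fun n => χ (n : ZMod q)) s‖ +
      ‖LSeries (fun n => χ (n : ZMod q)) s - 1‖ := by
    calc (1 : ℝ) = ‖LSeries (fun n => χ (n : ZMod q)) s -
        (LSeries (fun n => χ (n : ZMod q)) s - 1)‖ := by simp
      _ ≤ _ := norm_sub_le _ _
  linarith

theorem lb {q : ℕ} [NeZero q] {χ : DirichletCharacter ℂ q} (hχ : χ ≠ 1) {s : ℂ}
    (hs : 1 / 10 ≤ s.re) : ‖χ.LFunction s‖ ≤ (1 + 10 * ‖s‖) * q := by
  have hq : (1 : ℝ) ≤ q := by exact_mod_cast Nat.one_le_iff_ne_zero.2 (NeZero.ne q)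
  have hs0 : 0 < s.re := by linarith
  rw [LFunction_eq hχ le_rfl hs0]
  have h1 := TM_norm_le (N := 1) le_rfl (Ech_norm_le hχ 1) hs0
  have h2 : ‖s * TM 1 (Ech χ 1) s‖ ≤ 10 * ‖s‖ * q := by
    rw [norm_mul]
    have h3 : (q : ℝ) * (((1 : ℕ) : ℝ) ^ (-s.re) / s.re) ≤ q * 10 := by
      refine mul_le_mul_of_nonneg_left ?_ (by positivity)
      rw [Nat.cast_one, Real.one_rpow, div_le_iff₀ hs0]
      linarith
    calc ‖s‖ * ‖TM 1 (Ech χ 1) s‖ ≤ ‖s‖ * (q * 10) :=
          mul_le_mul_of_nonneg_left (h1.trans h3) (norm_nonneg _)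
      _ = 10 * ‖s‖ * q := by ring
  have h3 : ‖∑ n ∈ Finset.Icc (1 : ℕ) 1, χ (n : ZMod q) * (n : ℂ) ^ (-s)‖ ≤ 1 := by
    simp
  calc _ ≤ 1 + 10 * ‖s‖ * (q : ℝ) := (norm_add_le _ _).trans (add_le_add h3 h2)
    _ ≤ (1 + 10 * ‖s‖) * q := by nlinarith

theorem trvA
    (H : ∀ f : ℂ → ℂ, Differentiable ℂ f → ∀ (c : ℂ) (r R : ℝ), 0 < r → r < R →
  f c ≠ 0 → ∀ S : Finset ℂ, (∀ ρ ∈ S, ‖ρ - c‖ ≤ r) →
  ((∑ ρ ∈ S, analyticOrderNatAt f ρ : ℕ) : ℝ) * Real.log (R / r) ≤
    Real.circleAverage (fun z => Real.posLog ‖f z‖) c R - Real.log ‖f c‖) :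
    ∀ T : ℝ, ∃ C : ℝ, 0 < C ∧ ∀ (q : ℕ) [NeZero q], 1 < q →
  ∀ χ : DirichletCharacter ℂ q, χ.IsPrimitive → ∀ t : ℝ, |t| ≤ T → ∀ S : Finset ℂ,
  (∀ ρ ∈ S, ‖ρ - (1 / 2 + (t : ℂ) * Complex.I)‖ ≤ 1 / 4) →
  ((∑ ρ ∈ S, analyticOrderNatAt χ.LFunction ρ : ℕ) : ℝ) ≤ C * Real.log q := by
  intro T
  have hl2 : 0 < Real.log 2 := Real.log_pos (by norm_num)
  set A : ℝ := 41 + 10 * |T| with hA
  have hA1 : 41 ≤ A := by rw [hA]; linarith [abs_nonneg T]
  have hlA : 0 ≤ Real.log A := Real.log_nonneg (by linarith)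
  have hlr : 0 < Real.log (19 / 10 / (7 / 4)) := Real.log_pos (by norm_num)
  refine ⟨(Real.log A / Real.log 2 + 3) / Real.log (19 / 10 / (7 / 4)), by positivity, ?_⟩
  intro q _ hq χ hχp t ht S hS
  have hq2 : (2 : ℝ) ≤ q := by exact_mod_cast hq
  have hlq : Real.log 2 ≤ Real.log q := Real.log_le_log (by norm_num) hq2
  have hχ : χ ≠ 1 := by
    intro h
    have h1 : χ.conductor = q := hχp
    rw [h, DirichletCharacter.conductor_one] at h1
    omega
  set c : ℂ := 2 + (t : ℂ) * Complex.I with hc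
  have hl := l2 χ t
  rw [← hc] at hl
  have hc0 : χ.LFunction c ≠ 0 := by
    intro h
    rw [h, norm_zero] at hl
    norm_num at hl
  have hmain := H χ.LFunction (DirichletCharacter.differentiable_LFunction hχ) c (7 / 4) (19 / 10)
    (by norm_num) (by norm_num) hc0 S (by
      intro ρ hρ
      have h1 := hS ρ hρ
      have h2 : ρ - c = (ρ - (1 / 2 + (t : ℂ) * Complex.I)) + (-(3 / 2 : ℝ) : ℂ) := by
        rw [hc]; push_cast; ring
      rw [h2]
      refine (norm_add_le _ _).trans ?_
      rw [norm_neg, Complex.norm_real, Real.norm_eq_abs, abs_of_pos (by norm_num)]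
      linarith)
  have hT0 : |t| ≤ |T| := ht.trans (le_abs_self T)
  have hav : Real.circleAverage (fun z => Real.posLog ‖χ.LFunction z‖) c (19 / 10) ≤
      Real.log (A * q) := by
    apply Real.circleAverage_mono_on_of_le_circle
    · apply ContinuousOn.circleIntegrable (by norm_num)
      apply Continuous.continuousOn
      exact Real.continuous_posLog.comp
        (DirichletCharacter.differentiable_LFunction hχ).continuous.norm
    · intro z hz
      rw [mem_sphere, dist_eq_norm, abs_of_pos (by norm_num)] at hz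
      have h1 : 1 / 10 ≤ z.re := by
        have h2 := Complex.abs_re_le_norm (z - c)
        rw [hz, Complex.sub_re] at h2
        have h3 : c.re = 2 := by simp [hc]
        rw [h3] at h2
        linarith [(abs_le.1 h2).1]
      have h2 : ‖z‖ ≤ 4 + |T| := by
        have h3 : z = (z - c) + c := by ring
        have h4 : ‖c‖ ≤ 2 + |t| := by
          rw [hc]
          refine (norm_add_le _ _).trans ?_
          simp
        rw [h3]
        refine (norm_add_le _ _).trans ?_
        rw [hz]
        linarith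
      have h3 := lb hχ h1
      have h4 : ‖χ.LFunction z‖ ≤ A * q := by
        refine h3.trans ?_
        apply mul_le_mul_of_nonneg_right _ (by positivity)
        rw [hA]; linarith
      have h5 := Real.posLog_le_posLog (norm_nonneg _) h4
      refine h5.trans ?_
      rw [Real.posLog_eq_log]
      rw [abs_of_nonneg (by positivity)]
      nlinarith
  have h1 : Real.log (A * q) = Real.log A + Real.log q :=
    Real.log_mul (by linarith) (by linarith)
  have h2 : - Real.log ‖χ.LFunction c‖ ≤ 2 * Real.log q := by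
    have h3 : Real.log (1 / 3) ≤ Real.log ‖χ.LFunction c‖ := Real.log_le_log (by norm_num) hl
    have h4 : Real.log (1 / 3) = - Real.log 3 := by
      rw [one_div, Real.log_inv]
    have h5 : Real.log 3 ≤ 2 * Real.log 2 := by
      have : (2 : ℝ) * Real.log 2 = Real.log (2 ^ 2) := by
        rw [Real.log_pow]; norm_num
      rw [this]
      exact Real.log_le_log (by norm_num) (by norm_num)
    linarith
  have h3 : Real.log A ≤ Real.log A / Real.log 2 * Real.log q := by
    rw [div_mul_eq_mul_div, le_div_iff₀ hl2]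
    exact mul_le_mul_of_nonneg_left hlq hlA
  rw [div_mul_eq_mul_div, le_div_iff₀ hlr]
  linarith

/-- JEN -/
theorem jen : Pool.Agent.Y766.R11.S_JEN := by
  intro f hf c r R hr hrR hc S hS
  exact jenA f hf c r R hr hrR hc S hS

/-- TRV -/
theorem trv (h : Pool.Agent.Y766.R11.S_JEN) : Pool.Agent.Y766.R11.S_TRV := by
  intro T
  obtain ⟨C, hC, h1⟩ := trvA (fun f hf c r R hr hrR hc S hS => h f hf c r R hr hrR hc S hS) T
  exact ⟨C, hC, fun q hq0 hq χ hχ t ht S hS => h1 q hq χ hχ t ht S hS⟩

end Pool.Agent.Y907.R11
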